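import Pool.Agent.H47.PL.Targets2

/-!
# MP_c62aed_lc: row WM1 of the board pln_modules (few clauses with a property)
-/

set_option autoImplicit false

namespace Pool.Agent.H51.PL

open Finset Pool.Agent.H47.PL

open Classical in
theorem pf_WM1 : T_WM1 := by
  intro X _ m w Ω p θ h0 h1
  set wt : X → ℝ := fun x => if p x then θ else 1 with hwt
  have hwt0 : ∀ x, 0 ≤ wt x := by
    intro x
    simp only [hwt]
    split_ifs
    · exact h0.le
    · exact zero_le_one
  have hprod : ∀ F : Fin m → X, ∏ c, wt (F c) = θ ^ (univ.filter fun c => p (F c)).card := by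
    intro F
    simp only [hwt]
    rw [prod_ite, prod_const, prod_const_one, mul_one]
  have hsum : ∑ x ∈ Ω, wt x = Ω.card - (1 - θ) * ((Ω.filter p).card : ℝ) := by
    have h2 : ∀ x, wt x = 1 - (1 - θ) * (if p x then (1 : ℝ) else 0) := by
      intro x
      simp only [hwt]
      split_ifs <;> ring
    rw [sum_congr rfl fun x _ => h2 x, sum_sub_distrib, ← mul_sum, sum_boole]
    simp
  rw [← hsum, Finset.sum_pow', ← nsmul_eq_mul, ← sum_const]
  have hsub : (univ.filter fun F : Fin m → X => (∀ c, F c ∈ Ω) ∧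
      (univ.filter fun c => p (F c)).card < w) ⊆ Fintype.piFinset fun _ : Fin m => Ω := by
    intro F hF
    rw [Fintype.mem_piFinset]
    exact (mem_filter.1 hF).2.1
  calc ∑ _F ∈ (univ.filter fun F : Fin m → X => (∀ c, F c ∈ Ω) ∧
        (univ.filter fun c => p (F c)).card < w), θ ^ w
      ≤ ∑ F ∈ (univ.filter fun F : Fin m → X => (∀ c, F c ∈ Ω) ∧
        (univ.filter fun c => p (F c)).card < w), ∏ c, wt (F c) := by
        refine sum_le_sum fun F hF => ?_
        rw [hprod]
        exact pow_le_pow_of_le_one h0.le h1 (mem_filter.1 hF).2.2.le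
    _ ≤ ∑ F ∈ Fintype.piFinset fun _ : Fin m => Ω, ∏ c, wt (F c) :=
        sum_le_sum_of_subset_of_nonneg hsub fun F _ _ => prod_nonneg fun c _ => hwt0 _

end Pool.Agent.H51.PL
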